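import Pool.Agent.R755.Tr.Phi

/-!
# Superlevel sets: the set version of the interval inequality, and the loss estimate
-/

set_option autoImplicit false

namespace Pool.Agent.R755.Tr

open MeasureTheory ProbabilityTheory Set Filter Topology
open Pool.Agent.H460BZ (φ φ_eq φ_cont φ_nonneg)
open scoped ENNReal

theorem exists_Icc {I : Set ℝ} (mI : MeasurableSet I) (oI : I.OrdConnected) {s s' : ℝ} (hs : s' < s)
    (h : ENNReal.ofReal (Ph s) ≤ gaussianReal 0 1 I) :
    ∃ a b, a < b ∧ Icc a b ⊆ I ∧ Ph s' ≤ Ph b - Ph a := by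
  have h1 : ENNReal.ofReal (Ph s') < gaussianReal 0 1 I :=
    lt_of_lt_of_le ((ENNReal.ofReal_lt_ofReal_iff (Ph_pos s)).2 (Ph_strict hs)) h
  obtain ⟨C, hCI, hC, hC2⟩ := mI.exists_lt_isCompact h1
  have hne : C.Nonempty := by
    rw [nonempty_iff_ne_empty]
    rintro rfl
    simp at hC2
  have h3 : Icc (sInf C) (sSup C) ⊆ I := oI.out (hCI (hC.sInf_mem hne)) (hCI (hC.sSup_mem hne))
  have hCsub : C ⊆ Icc (sInf C) (sSup C) := fun x hx =>
    ⟨csInf_le hC.bddBelow hx, le_csSup hC.bddAbove hx⟩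
  have hle : sInf C ≤ sSup C := (hCsub hne.some_mem).1.trans (hCsub hne.some_mem).2
  have h4 : ENNReal.ofReal (Ph s') ≤ ENNReal.ofReal (Ph (sSup C) - Ph (sInf C)) := by
    rw [← meas_Icc _ _ hle]
    exact (hC2.trans_le (measure_mono hCsub)).le
  have h5 : 0 ≤ Ph (sSup C) - Ph (sInf C) := sub_nonneg.2 (Ph_mono hle)
  have h6 : Ph s' ≤ Ph (sSup C) - Ph (sInf C) := (ENNReal.ofReal_le_ofReal_iff h5).1 h4
  refine ⟨sInf C, sSup C, ?_, h3, h6⟩
  rcases hle.eq_or_lt with he | he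
  · rw [he, sub_self] at h6
    exact absurd h6 (not_le.2 (Ph_pos s'))
  · exact he

/-- the interval inequality for convex subsets of the line -/
theorem ehr_set {I0 I1 J : Set ℝ} (m0 : MeasurableSet I0) (m1 : MeasurableSet I1)
    (o0 : I0.OrdConnected) (o1 : I1.OrdConnected) {s0 s1 l : ℝ} (hl0 : 0 ≤ l) (hl1 : l ≤ 1)
    (h0 : ENNReal.ofReal (Ph s0) ≤ gaussianReal 0 1 I0)
    (h1 : ENNReal.ofReal (Ph s1) ≤ gaussianReal 0 1 I1)
    (hJ : ∀ x ∈ I0, ∀ y ∈ I1, (1 - l) * x + l * y ∈ J) :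
    ENNReal.ofReal (Ph ((1 - l) * s0 + l * s1)) ≤ gaussianReal 0 1 J := by
  have key : ∀ ε > 0, ENNReal.ofReal (Ph ((1 - l) * s0 + l * s1 - ε)) ≤ gaussianReal 0 1 J := by
    intro ε hε
    obtain ⟨a0, b0, hab0, hI0, hm0⟩ := exists_Icc m0 o0 (s' := s0 - ε) (by linarith) h0
    obtain ⟨a1, b1, hab1, hI1, hm1⟩ := exists_Icc m1 o1 (s' := s1 - ε) (by linarith) h1
    have h2 := ehr_int hab0 hab1 hm0 hm1 hl0 hl1
    have e : (1 - l) * (s0 - ε) + l * (s1 - ε) = (1 - l) * s0 + l * s1 - ε := by ring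
    rw [e] at h2
    have hle : (1 - l) * a0 + l * a1 ≤ (1 - l) * b0 + l * b1 := by
      have e1 := mul_le_mul_of_nonneg_left hab0.le (by linarith : 0 ≤ 1 - l)
      have e2 := mul_le_mul_of_nonneg_left hab1.le hl0
      linarith
    refine (ENNReal.ofReal_le_ofReal h2).trans ?_
    rw [← meas_Icc _ _ hle]
    apply measure_mono
    intro z hz
    have hlt : (1 - l) * a0 + l * a1 < (1 - l) * b0 + l * b1 := by
      rcases hle.eq_or_lt with he | he
      · rw [he, sub_self] at h2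
        exact absurd h2 (not_le.2 (Ph_pos _))
      · exact he
    set D := (1 - l) * b0 + l * b1 - ((1 - l) * a0 + l * a1) with hD
    have hD0 : 0 < D := by rw [hD]; linarith
    set τ := (z - ((1 - l) * a0 + l * a1)) / D with hτ
    have hτ0 : 0 ≤ τ := div_nonneg (by linarith [hz.1]) hD0.le
    have hτ1 : τ ≤ 1 := by rw [hτ, div_le_one hD0, hD]; linarith [hz.2]
    have hz' : z = (1 - l) * (a0 + τ * (b0 - a0)) + l * (a1 + τ * (b1 - a1)) := by
      have : τ * D = z - ((1 - l) * a0 + l * a1) := div_mul_cancel₀ _ hD0.ne'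
      rw [hD] at this
      linarith
    rw [hz']
    have c0 : 0 ≤ τ * (b0 - a0) := mul_nonneg hτ0 (by linarith)
    have c1 : 0 ≤ τ * (b1 - a1) := mul_nonneg hτ0 (by linarith)
    have c2 : τ * (b0 - a0) ≤ 1 * (b0 - a0) := mul_le_mul_of_nonneg_right hτ1 (by linarith)
    have c3 : τ * (b1 - a1) ≤ 1 * (b1 - a1) := mul_le_mul_of_nonneg_right hτ1 (by linarith)
    exact hJ _ (hI0 ⟨by linarith, by linarith⟩) _ (hI1 ⟨by linarith, by linarith⟩)
  have hlim : Tendsto (fun ε : ℝ => ENNReal.ofReal (Ph ((1 - l) * s0 + l * s1 - ε))) (𝓝[>] 0)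
      (𝓝 (ENNReal.ofReal (Ph ((1 - l) * s0 + l * s1 - 0)))) := by
    apply Tendsto.mono_left _ nhdsWithin_le_nhds
    exact ((ENNReal.continuous_ofReal.comp Ph_cont).comp (by fun_prop :
      Continuous fun ε : ℝ => (1 - l) * s0 + l * s1 - ε)).tendsto 0
  rw [sub_zero] at hlim
  apply le_of_tendsto hlim
  filter_upwards [self_mem_nhdsWithin] with ε hε
  exact key ε hε

/-! ### decay of the distribution function -/

theorem Ph_decay {q h : ℝ} (hh : 0 < h) (hqh : 1 ≤ q * h) {s : ℝ} (hs : s ≤ -q) :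
    Ph (s - h) ≤ Ph s / 2 := by
  have hd : ∀ x, HasDerivAt (fun x => Ph x / 2 - Ph (x - h)) (φ x / 2 - φ (x - h)) x := by
    intro x
    have h1 : HasDerivAt (fun x => Ph (x - h)) (φ (x - h)) x := by
      have := (Ph_deriv (x - h)).comp x ((hasDerivAt_id x).sub_const h)
      exact this.congr_deriv (by ring)
    exact ((Ph_deriv x).div_const 2).sub h1
  have hmono : MonotoneOn (fun x => Ph x / 2 - Ph (x - h)) (Iic (-q)) := by
    apply monotoneOn_of_deriv_nonneg (convex_Iic _)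
    · exact fun x _ => (hd x).continuousAt.continuousWithinAt
    · exact fun x _ => (hd x).differentiableAt.differentiableWithinAt
    · intro x hx
      rw [interior_Iic] at hx
      rw [(hd x).deriv]
      have hx' : x < -q := hx
      have e1 : φ (x - h) = φ x * Real.exp (x * h - h ^ 2 / 2) := by
        rw [φ_eq, φ_eq, mul_assoc, ← Real.exp_add]
        congr 2; ring
      have e2 : Real.exp (x * h - h ^ 2 / 2) ≤ 1 / 2 := by
        have h3 : x * h - h ^ 2 / 2 ≤ -1 := by nlinarith [sq_nonneg h]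
        refine (Real.exp_le_exp.2 h3).trans ?_
        rw [Real.exp_neg, one_div]
        apply inv_anti₀ (by norm_num)
        linarith [Real.add_one_le_exp (1:ℝ)]
      rw [e1]
      have := φ_pos x
      nlinarith
  have hlim : Tendsto (fun x => Ph x / 2 - Ph (x - h)) atBot (𝓝 (0 / 2 - 0)) := by
    apply Tendsto.sub (Ph_bot.div_const 2)
    exact Ph_bot.comp (tendsto_atBot_add_const_right _ _ tendsto_id)
  have : 0 / 2 - 0 ≤ Ph s / 2 - Ph (s - h) := by
    apply le_of_tendsto hlim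
    filter_upwards [eventually_le_atBot s] with x hx
    exact hmono (show x ≤ -q from hx.trans hs) hs hx
  linarith

section
variable {Ω : Type*} [MeasurableSpace Ω]

/-- superlevel sets of a function with values in `[0,1]` -/
def Ev (m : Ω → ℝ≥0∞) (s : ℝ) : Set Ω := {y | ENNReal.ofReal (Ph s) ≤ m y}

theorem Ev_meas {m : Ω → ℝ≥0∞} (hm : Measurable m) (s : ℝ) : MeasurableSet (Ev m s) :=
  measurableSet_le measurable_const hm

omit [MeasurableSpace Ω] in
theorem Ev_anti (m : Ω → ℝ≥0∞) {s t : ℝ} (h : s ≤ t) : Ev m t ⊆ Ev m s := fun _ hy =>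
  (ENNReal.ofReal_le_ofReal (Ph_mono h)).trans hy

theorem loss_triv (ν : Measure Ω) [IsProbabilityMeasure ν] {m : Ω → ℝ≥0∞} (hm : Measurable m)
    (s : ℝ) : ∫⁻ y in (Ev m s)ᶜ, m y ∂ν ≤ ENNReal.ofReal (Ph s) := by
  calc ∫⁻ y in (Ev m s)ᶜ, m y ∂ν ≤ ∫⁻ y in (Ev m s)ᶜ, ENNReal.ofReal (Ph s) ∂ν := by
        apply setLIntegral_mono' (Ev_meas hm s).compl
        intro y hy
        exact (not_le.1 (show ¬ ENNReal.ofReal (Ph s) ≤ m y from hy)).le
    _ = ENNReal.ofReal (Ph s) * ν (Ev m s)ᶜ := by rw [setLIntegral_const]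
    _ ≤ ENNReal.ofReal (Ph s) * 1 := mul_le_mul_right prob_le_one _
    _ = _ := mul_one _

theorem loss_step (ν : Measure Ω) [IsProbabilityMeasure ν] {m : Ω → ℝ≥0∞} (hm : Measurable m)
    {s t : ℝ} (hst : t ≤ s) : ∫⁻ y in (Ev m s)ᶜ, m y ∂ν ≤
      ∫⁻ y in (Ev m t)ᶜ, m y ∂ν + ENNReal.ofReal (Ph s) * ν (Ev m t \ Ev m s) := by
  have h1 : (Ev m s)ᶜ = (Ev m t)ᶜ ∪ (Ev m t \ Ev m s) := by
    ext y
    simp only [mem_compl_iff, mem_union, Set.mem_sdiff]
    constructor
    · intro h; by_cases h2 : y ∈ Ev m t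
      · exact Or.inr ⟨h2, h⟩
      · exact Or.inl h2
    · rintro (h | h)
      · exact fun h2 => h (Ev_anti m hst h2)
      · exact h.2
  rw [h1]
  refine (lintegral_union_le _ _ _).trans (add_le_add_right ?_ _)
  calc ∫⁻ y in Ev m t \ Ev m s, m y ∂ν ≤ ∫⁻ y in Ev m t \ Ev m s, ENNReal.ofReal (Ph s) ∂ν := by
        apply setLIntegral_mono' ((Ev_meas hm t).diff (Ev_meas hm s))
        intro y hy
        exact (not_le.1 (show ¬ ENNReal.ofReal (Ph s) ≤ m y from hy.2)).le
    _ = _ := by rw [setLIntegral_const]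

theorem loss_le (ν : Measure Ω) [IsProbabilityMeasure ν] {m : Ω → ℝ≥0∞} (hm : Measurable m)
    {h q B : ℝ} (hh : 0 < h) (hqh : 1 ≤ q * h) (hB0 : 0 ≤ B)
    (hB : ∀ s ≤ -q, ν (Ev m (s - h) \ Ev m s) ≤ ENNReal.ofReal B) {s : ℝ} (hs : s ≤ -q) :
    ∫⁻ y in (Ev m s)ᶜ, m y ∂ν ≤ ENNReal.ofReal (2 * B * Ph s) := by
  have key : ∀ k : ℕ, ∀ s ≤ -q, ∫⁻ y in (Ev m s)ᶜ, m y ∂ν ≤
      ENNReal.ofReal (Ph (s - k * h) + 2 * B * Ph s) := by
    intro k
    induction k with
    | zero =>
      intro s _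
      refine (loss_triv ν hm s).trans (ENNReal.ofReal_le_ofReal ?_)
      have := mul_nonneg hB0 (Ph_pos s).le
      simp only [Nat.cast_zero, zero_mul, sub_zero]
      linarith
    | succ k ih =>
      intro s hs
      have h1 := loss_step ν hm (s := s) (t := s - h) (by linarith)
      have h2 := ih (s - h) (by linarith)
      have h3 := hB s hs
      have h4 := Ph_decay hh hqh hs
      have p1 := Ph_pos s
      have p2 := Ph_pos (s - h)
      have p3 := Ph_pos (s - h - k * h)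
      calc ∫⁻ y in (Ev m s)ᶜ, m y ∂ν
          ≤ ENNReal.ofReal (Ph (s - h - k * h) + 2 * B * Ph (s - h)) +
            ENNReal.ofReal (Ph s) * ENNReal.ofReal B :=
              h1.trans (add_le_add h2 (mul_le_mul_right h3 _))
        _ = ENNReal.ofReal (Ph (s - h - k * h) + 2 * B * Ph (s - h) + Ph s * B) := by
            rw [← ENNReal.ofReal_mul p1.le, ← ENNReal.ofReal_add (by positivity) (by positivity)]
        _ ≤ _ := by
            apply ENNReal.ofReal_le_ofReal
            have e : s - h - k * h = s - ((k + 1 : ℕ) : ℝ) * h := by push_cast; ring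
            rw [e]
            nlinarith [mul_le_mul_of_nonneg_left h4 hB0]
  have hlim : Tendsto (fun k : ℕ => ENNReal.ofReal (Ph (s - k * h) + 2 * B * Ph s)) atTop
      (𝓝 (ENNReal.ofReal (0 + 2 * B * Ph s))) := by
    apply (ENNReal.continuous_ofReal.tendsto _).comp
    apply Tendsto.add_const
    apply Ph_bot.comp
    have h1 : Tendsto (fun k : ℕ => (k : ℝ) * h) atTop atTop :=
      tendsto_natCast_atTop_atTop.atTop_mul_const hh
    have h2 : Tendsto (fun k : ℕ => -((k : ℝ) * h)) atTop atBot := tendsto_neg_atTop_atBot.comp h1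
    exact (tendsto_atBot_add_const_left _ s h2).congr (fun k => by ring)
  rw [zero_add] at hlim
  exact ge_of_tendsto' hlim (fun k => key k s hs)

end

/-! ### log-concave profile -/

theorem window {N : ℝ → ℝ} (hanti : Antitone N) (h0 : ∀ s, 0 ≤ N s) (h1 : ∀ s, N s ≤ 1)
    (hlc : ∀ a d t : ℝ, 0 < t → t < 1 → N a ^ (1 - t) * N d ^ t ≤ N ((1 - t) * a + t * d))
    {a h c κ : ℝ} (hh : 0 < h) (hac : a + h ≤ c) (hκN : κ ≤ N (c + h)) :
    κ * (N a - N (a + h)) ≤ N c - N (c + h) := by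
  set d := c + h with hd
  have hda : 0 < d - a := by rw [hd]; linarith
  set t := h / (d - a) with ht
  have ht0 : 0 < t := div_pos hh hda
  have ht1 : t < 1 := by rw [ht, div_lt_one hda, hd]; linarith
  have htd : t * (d - a) = h := div_mul_cancel₀ _ hda.ne'
  have k1 := hlc a d t ht0 ht1
  have k2 := hlc a d (1 - t) (by linarith) (by linarith)
  have e1 : (1 - t) * a + t * d = a + h := by linarith
  have e2 : (1 - (1 - t)) * a + (1 - t) * d = c := by
    have : c = d - h := by rw [hd]; ring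
    rw [this]; linarith
  rw [e1] at k1
  rw [e2, sub_sub_cancel] at k2
  have n1 := h0 a
  have n2 := h0 d
  have k3 : N a * N d ≤ N (a + h) * N c := by
    have := mul_le_mul k1 k2 (by positivity) (h0 _)
    have e3 : N a ^ (1 - t) * N d ^ t * (N a ^ t * N d ^ (1 - t)) = N a * N d := by
      have e4 : N a ^ (1 - t) * N a ^ t = N a := by
        rw [← Real.rpow_add_of_nonneg n1 (by linarith) ht0.le]; simp
      have e5 : N d ^ t * N d ^ (1 - t) = N d := by
        rw [← Real.rpow_add_of_nonneg n2 ht0.le (by linarith)]; simp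
      calc _ = (N a ^ (1 - t) * N a ^ t) * (N d ^ t * N d ^ (1 - t)) := by ring
        _ = _ := by rw [e4, e5]
    rwa [e3] at this
  have m1 : N (a + h) ≤ N a := hanti (by linarith)
  have m2 : N d ≤ N c := hanti (by linarith)
  have m3 : N d * (N a - N (a + h)) ≤ N c - N d := by
    nlinarith [h1 (a + h), h0 (a + h)]
  have m4 : κ * (N a - N (a + h)) ≤ N d * (N a - N (a + h)) :=
    mul_le_mul_of_nonneg_right hκN (by linarith)
  exact m4.trans m3

/-- deep windows are light -/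
theorem windows {N : ℝ → ℝ} (hanti : Antitone N) (h0 : ∀ s, 0 ≤ N s) (h1 : ∀ s, N s ≤ 1)
    (hlc : ∀ a d t : ℝ, 0 < t → t < 1 → N a ^ (1 - t) * N d ^ t ≤ N ((1 - t) * a + t * d))
    {T κ : ℝ} (hT : 0 < T) (k : ℕ) (hk : 0 < k) (hκN : κ ≤ N (-T))
    {s : ℝ} (hs : s ≤ -(2 * T)) :
    k * κ * (N (s - T / k) - N s) ≤ N (-(2 * T)) - N (-T) := by
  have hk' : (0:ℝ) < k := by exact_mod_cast hk
  set h := T / k with hh
  have hh0 : 0 < h := div_pos hT hk'
  have hkh : k * h = T := by rw [hh]; field_simp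
  have step : ∀ i ∈ Finset.range k, κ * (N (s - h) - N s) ≤
      N (-(2 * T) + i * h) - N (-(2 * T) + (i + 1 : ℕ) * h) := by
    intro i hi
    have hi' : ((i + 1 : ℕ) : ℝ) ≤ k := by exact_mod_cast Finset.mem_range.1 hi
    have hi0 : (0:ℝ) ≤ i := Nat.cast_nonneg i
    have e1 : -(2 * T) + ((i + 1 : ℕ) : ℝ) * h = -(2 * T) + i * h + h := by push_cast; ring
    rw [e1]
    have e2 : s = s - h + h := by ring
    conv_lhs => rw [show N s = N (s - h + h) by rw [← e2]]
    apply window hanti h0 h1 hlc hh0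
    · have := mul_nonneg hi0 hh0.le
      linarith
    · refine hκN.trans (hanti ?_)
      rw [← e1]
      have := mul_le_mul_of_nonneg_right hi' hh0.le
      linarith
  have hsum := Finset.sum_le_sum step
  rw [Finset.sum_const, Finset.card_range, nsmul_eq_mul,
    Finset.sum_range_sub' (fun i : ℕ => N (-(2 * T) + i * h)) k] at hsum
  simp only [Nat.cast_zero, zero_mul, add_zero] at hsum
  rw [hkh, show -(2 * T) + T = -T by ring] at hsum
  linarith

end Pool.Agent.R755.Tr
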