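import Pool.Agent.R755.Tr.Ehr
import Pool.Agent.H460BZ.Body

/-!
# The modified Banaszczyk transform: gain, loss, and the comparison
-/

set_option autoImplicit false

namespace Pool.Agent.R755.Tr

open MeasureTheory ProbabilityTheory Set Filter Topology
open Pool.Agent.H460BZ (φ φ_eq φ_cont φ_nonneg EE sg sg_closed sg_convex fubini)
open Pool.Agent.H902R3.ZA (gm)
open scoped ENNReal

theorem gm_bm (n : ℕ) (t : ℝ) (h0 : 0 < t) (h1 : t < 1) (A B C : Set (Fin n → ℝ))
    (hA : MeasurableSet A) (hB : MeasurableSet B) (hC : MeasurableSet C)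
    (h : ∀ x ∈ A, ∀ y ∈ B, (fun i => (1 - t) * x i + t * y i) ∈ C) :
    (gm n A) ^ (1 - t) * (gm n B) ^ t ≤ gm n C := by
  have key := Pool.Agent.H902R3.ZA.PLN_ok (Pool.Agent.H902R3.ZA.PLA_ok Pool.Agent.H902R3.ZA.LBM_ok)
    n (1 - t) (by linarith) (by linarith)
    (A.indicator 1) (B.indicator 1) (C.indicator 1)
    (measurable_one.indicator hA) (measurable_one.indicator hB)
    (measurable_one.indicator hC)
    (fun x => Set.indicator_le_self' (fun _ _ => zero_le_one) x)
    (fun x => Set.indicator_le_self' (fun _ _ => zero_le_one) x) ?_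
  · rw [lintegral_indicator_one hA, lintegral_indicator_one hB,
      lintegral_indicator_one hC, sub_sub_cancel] at key
    exact key
  · intro x y
    rw [sub_sub_cancel]
    by_cases hx : x ∈ A
    · by_cases hy : y ∈ B
      · have hz := h _ hx _ hy
        rw [indicator_of_mem hx, indicator_of_mem hy, indicator_of_mem hz]
        simp
      · rw [indicator_of_notMem hy, ENNReal.zero_rpow_of_pos h0, mul_zero]
        exact zero_le
    · rw [indicator_of_notMem hx, ENNReal.zero_rpow_of_pos (by linarith), zero_mul]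
      exact zero_le

/-! ### the gain -/

theorem Ph_slope {A b r : ℝ} (hr : 0 ≤ r) (h1 : -(A + 1) ≤ b) (h2 : b + r ≤ A + 1) :
    r * φ (A + 1) ≤ Ph (b + r) - Ph b := by
  have hA : 0 ≤ A + 1 := by linarith
  rw [Ph_sub b (b + r) (by linarith)]
  have h3 : ∫ x in b..(b + r), φ (A + 1) = r * φ (A + 1) := by
    rw [intervalIntegral.integral_const]; simp
  rw [← h3]
  apply intervalIntegral.integral_mono_on (by linarith)
    intervalIntegrable_const (φ_cont.intervalIntegrable _ _)
  intro x hx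
  rw [φ_eq, φ_eq]
  apply mul_le_mul_of_nonneg_left _ (by positivity)
  apply Real.exp_le_exp.2
  have h4 : |x| ≤ |A + 1| := by
    rw [abs_of_nonneg hA]; exact abs_le.2 ⟨by linarith [hx.1], by linarith [hx.2]⟩
  have := sq_le_sq.2 h4
  linarith

theorem gain {I J : Set ℝ} (hc : IsClosed I) (ho : I.OrdConnected) {A r : ℝ}
    (hr0 : 0 ≤ r) (hr1 : r ≤ 1)
    (h1 : gaussianReal 0 1 (Icc (-A) A)ᶜ < gaussianReal 0 1 I)
    (h2 : gaussianReal 0 1 I < gaussianReal 0 1 (Icc (-A) A))
    (hJ : ∀ x ∈ I, ∀ t ∈ Icc (-r) r, x + t ∈ J) :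
    gaussianReal 0 1 I + ENNReal.ofReal (r * φ (A + 1)) ≤ gaussianReal 0 1 J := by
  have e1 : ∃ x0 ∈ I, x0 ∈ Icc (-A) A := by
    by_contra hcon
    push Not at hcon
    have : I ⊆ (Icc (-A) A)ᶜ := fun x hx => hcon x hx
    exact absurd (measure_mono this) (not_le.2 h1)
  have e2 : ∃ x1 ∈ Icc (-A) A, x1 ∉ I := by
    by_contra hcon
    push Not at hcon
    have : Icc (-A) A ⊆ I := fun x hx => hcon x hx
    exact absurd (measure_mono this) (not_le.2 h2)
  obtain ⟨x0, hx0, hx0A⟩ := e1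
  obtain ⟨x1, hx1A, hx1⟩ := e2
  have hIJ : I ⊆ J := fun x hx => by
    have := hJ x hx 0 ⟨by linarith, hr0⟩
    rwa [add_zero] at this
  rcases lt_trichotomy x0 x1 with h | h | h
  · -- right end
    have hb : ∀ x ∈ I, x ≤ x1 := by
      intro x hx
      by_contra hcon
      push Not at hcon
      exact hx1 (ho.out hx0 hx ⟨h.le, hcon.le⟩)
    have hbd : BddAbove I := ⟨x1, hb⟩
    set β := sSup I with hβ
    have hβI : β ∈ I := hc.csSup_mem ⟨x0, hx0⟩ hbd
    have hβ0 : x0 ≤ β := le_csSup hbd hx0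
    have hβ1 : β ≤ x1 := csSup_le ⟨x0, hx0⟩ hb
    have hsub : I ∪ Ioc β (β + r) ⊆ J := by
      rintro x (hx | hx)
      · exact hIJ hx
      · have := hJ β hβI (x - β) ⟨by linarith [hx.1], by linarith [hx.2]⟩
        rwa [add_sub_cancel] at this
    have hdisj : Disjoint I (Ioc β (β + r)) := by
      rw [Set.disjoint_left]
      intro x hx hx'
      exact absurd (le_csSup hbd hx) (not_le.2 hx'.1)
    have h3 := Ph_slope (A := A) (b := β) hr0 (by linarith [hx0A.1]) (by linarith [hx1A.2])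
    calc gaussianReal 0 1 I + ENNReal.ofReal (r * φ (A + 1))
        ≤ gaussianReal 0 1 I + gaussianReal 0 1 (Ioc β (β + r)) := by
          rw [meas_Ioc β (β + r) (by linarith)]
          gcongr
      _ = gaussianReal 0 1 (I ∪ Ioc β (β + r)) := (measure_union hdisj measurableSet_Ioc).symm
      _ ≤ _ := measure_mono hsub
  · exact absurd (h ▸ hx0) hx1
  · -- left end
    have hb : ∀ x ∈ I, x1 ≤ x := by
      intro x hx
      by_contra hcon
      push Not at hcon
      exact hx1 (ho.out hx hx0 ⟨hcon.le, h.le⟩)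
    have hbd : BddBelow I := ⟨x1, hb⟩
    set β := sInf I with hβ
    have hβI : β ∈ I := hc.csInf_mem ⟨x0, hx0⟩ hbd
    have hβ0 : β ≤ x0 := csInf_le hbd hx0
    have hβ1 : x1 ≤ β := le_csInf ⟨x0, hx0⟩ hb
    have hsub : I ∪ Ico (β - r) β ⊆ J := by
      rintro x (hx | hx)
      · exact hIJ hx
      · have := hJ β hβI (x - β) ⟨by linarith [hx.1], by linarith [hx.2]⟩
        rwa [add_sub_cancel] at this
    have hdisj : Disjoint I (Ico (β - r) β) := by
      rw [Set.disjoint_left]
      intro x hx hx'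
      exact absurd (csInf_le hbd hx) (not_le.2 hx'.2)
    have h3 := Ph_slope (A := A) (b := β - r) hr0 (by linarith [hx1A.1]) (by linarith [hx0A.2])
    rw [sub_add_cancel] at h3
    have hna : NullSingletonClass (gaussianReal 0 1) := nullSingletonClass_gaussianReal one_ne_zero
    have e3 : gaussianReal 0 1 (Ico (β - r) β) = gaussianReal 0 1 (Ioc (β - r) β) :=
      measure_congr (Ico_ae_eq_Ioc)
    calc gaussianReal 0 1 I + ENNReal.ofReal (r * φ (A + 1))
        ≤ gaussianReal 0 1 I + gaussianReal 0 1 (Ico (β - r) β) := by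
          rw [e3, meas_Ioc (β - r) β (by linarith)]
          gcongr
      _ = gaussianReal 0 1 (I ∪ Ico (β - r) β) := (measure_union hdisj measurableSet_Ico).symm
      _ ≤ _ := measure_mono hsub

/-! ### the transform -/

/-- the chord of `K` through `y` in the direction of `u`, in arclength -/
def chord {n : ℕ} (K : Set (EE n)) (u y : EE n) : Set ℝ := {t : ℝ | y + t • (‖u‖⁻¹ • u) ∈ K}

/-- the points of the hyperplane orthogonal to `u` with a heavy chord -/
def ZK {n : ℕ} (K : Set (EE n)) (u : EE n) : Set (EE n) :=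
  {y | inner ℝ u y = 0 ∧
    gaussianReal 0 1 (Icc (-‖u‖) ‖u‖) ≤ gaussianReal 0 1 (chord K u y)}

open scoped Pointwise Classical in
/-- the modified transform -/
noncomputable def trans {n : ℕ} (K : Set (EE n)) (u : EE n) : Set (EE n) :=
  if u = 0 then K else (K + segment ℝ (-u) u) ∩ (ZK K u + {x | ∃ t : ℝ, x = t • u})

section
variable {M : ℕ} {K : Set (EE (M + 1))} {u : EE (M + 1)} {b : OrthonormalBasis (Fin (M + 1)) ℝ (EE (M + 1))}

/-- the point with transversal coordinates `y` -/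
noncomputable def wy (b : OrthonormalBasis (Fin (M + 1)) ℝ (EE (M + 1))) (y : Fin M → ℝ) :
    EE (M + 1) := ∑ j, y j • b (Fin.succ j)

/-- the chord over `y` -/
def Iy (K : Set (EE (M + 1))) (b : OrthonormalBasis (Fin (M + 1)) ℝ (EE (M + 1))) (y : Fin M → ℝ) :
    Set ℝ := {z : ℝ | z • b 0 + wy b y ∈ K}

/-- the measure of the chord over `y` -/
noncomputable def my (K : Set (EE (M + 1))) (b : OrthonormalBasis (Fin (M + 1)) ℝ (EE (M + 1)))
    (y : Fin M → ℝ) : ℝ≥0∞ := gaussianReal 0 1 (Iy K b y)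

theorem my_meas (hK : MeasurableSet K) : Measurable (my K b) := by
  have hmeas : Measurable (fun q : ℝ × (Fin M → ℝ) => q.1 • b 0 + ∑ j, q.2 j • b (Fin.succ j)) := by
    fun_prop
  exact measurable_measure_prodMk_right (hmeas hK)

theorem Iy_closed (hK : IsClosed K) (y : Fin M → ℝ) : IsClosed (Iy K b y) :=
  hK.preimage (by fun_prop)

theorem Iy_comb (hc : Convex ℝ K) {y0 y1 : Fin M → ℝ} {l : ℝ} (h0 : 0 ≤ l) (h1 : l ≤ 1) {x z : ℝ}
    (hx : x ∈ Iy K b y0) (hz : z ∈ Iy K b y1) :
    (1 - l) * x + l * z ∈ Iy K b (fun i => (1 - l) * y0 i + l * y1 i) := by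
  have := hc hx hz (by linarith : 0 ≤ 1 - l) h0 (by ring)
  show ((1 - l) * x + l * z) • b 0 + wy b (fun i => (1 - l) * y0 i + l * y1 i) ∈ K
  have e : (1 - l) • (x • b 0 + wy b y0) + l • (z • b 0 + wy b y1) =
      ((1 - l) * x + l * z) • b 0 + wy b (fun i => (1 - l) * y0 i + l * y1 i) := by
    unfold wy
    rw [smul_add, smul_add, smul_smul, smul_smul, add_smul, Finset.smul_sum, Finset.smul_sum]
    simp only [add_smul, Finset.sum_add_distrib, smul_smul]
    abel
  rwa [e] at this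

theorem Iy_ord (hc : Convex ℝ K) (y : Fin M → ℝ) : (Iy K b y).OrdConnected := by
  apply Convex.ordConnected
  intro x hx z hz a c ha hc' hac
  have := Iy_comb hc (l := c) hc' (by linarith) hx hz
  have e1 : (fun i => (1 - c) * y i + c * y i) = y := by ext i; ring
  rw [e1] at this
  have : a = 1 - c := by linarith
  rw [this, smul_eq_mul, smul_eq_mul]
  assumption

/-- the profile -/
noncomputable def NN (K : Set (EE (M + 1))) (b : OrthonormalBasis (Fin (M + 1)) ℝ (EE (M + 1)))
    (s : ℝ) : ℝ := (gm M (Ev (my K b) s)).toReal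

instance : IsProbabilityMeasure (gm M) := by
  unfold gm; infer_instance

theorem NN_nonneg (s : ℝ) : 0 ≤ NN K b s := ENNReal.toReal_nonneg

theorem NN_le (s : ℝ) : NN K b s ≤ 1 := by
  unfold NN
  have := ENNReal.toReal_mono ENNReal.one_ne_top (prob_le_one (μ := gm M) (s := Ev (my K b) s))
  simpa using this

theorem NN_anti : Antitone (NN K b) := fun _ _ h =>
  ENNReal.toReal_mono (measure_ne_top _ _) (measure_mono (Ev_anti _ h))

theorem NN_logconc (hK : IsClosed K) (hc : Convex ℝ K) (s0 s1 t : ℝ) (h0 : 0 < t) (h1 : t < 1) :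
    NN K b s0 ^ (1 - t) * NN K b s1 ^ t ≤ NN K b ((1 - t) * s0 + t * s1) := by
  unfold NN
  rw [ENNReal.toReal_rpow, ENNReal.toReal_rpow, ← ENNReal.toReal_mul]
  apply ENNReal.toReal_mono (measure_ne_top _ _)
  have mm := my_meas (b := b) hK.measurableSet
  apply gm_bm M t h0 h1 _ _ _ (Ev_meas mm _) (Ev_meas mm _) (Ev_meas mm _)
  intro x hx y hy
  exact ehr_set (Iy_closed hK x).measurableSet (Iy_closed hK y).measurableSet (Iy_ord hc x)
    (Iy_ord hc y) h0.le h1.le hx hy (fun p hp q hq => Iy_comb hc h0.le h1.le hp hq)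

theorem NN_lower (hK : IsClosed K) (s : ℝ) :
    (stdGaussian (EE (M + 1)) K).toReal - Ph s ≤ NN K b s := by
  have mm := my_meas (b := b) hK.measurableSet
  have h1 : stdGaussian (EE (M + 1)) K ≤ gm M (Ev (my K b) s) + ENNReal.ofReal (Ph s) := by
    rw [fubini M b K hK.measurableSet]
    calc ∫⁻ y, gaussianReal 0 1 {z : ℝ | z • b 0 + ∑ j, y j • b (Fin.succ j) ∈ K} ∂(gm M)
        = ∫⁻ y, my K b y ∂(gm M) := rfl
      _ = ∫⁻ y in Ev (my K b) s, my K b y ∂(gm M) + ∫⁻ y in (Ev (my K b) s)ᶜ, my K b y ∂(gm M) :=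
          (lintegral_add_compl _ (Ev_meas mm s)).symm
      _ ≤ _ := by
          apply add_le_add _ (loss_triv _ mm s)
          calc ∫⁻ y in Ev (my K b) s, my K b y ∂(gm M) ≤ ∫⁻ y in Ev (my K b) s, 1 ∂(gm M) :=
                lintegral_mono (fun y => prob_le_one)
            _ = _ := by simp
  have h2 := ENNReal.toReal_mono (by finiteness) h1
  rw [ENNReal.toReal_add (measure_ne_top _ _) ENNReal.ofReal_ne_top,
    ENNReal.toReal_ofReal (Ph_pos s).le] at h2
  unfold NN
  linarith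

theorem NN_window (hK : IsClosed K) {s t : ℝ} (h : t ≤ s) :
    gm M (Ev (my K b) t \ Ev (my K b) s) = ENNReal.ofReal (NN K b t - NN K b s) := by
  have mm := my_meas (b := b) hK.measurableSet
  unfold NN
  rw [← ENNReal.toReal_sub_of_le (measure_mono (Ev_anti _ h)) (measure_ne_top _ _),
    ENNReal.ofReal_toReal (ne_top_of_le_ne_top (measure_ne_top _ _) tsub_le_self),
    measure_sdiff (Ev_anti _ h) (Ev_meas mm s).nullMeasurableSet (measure_ne_top _ _)]

end

theorem Ph_slope_le {r : ℝ} (hr : 0 ≤ r) : Ph r - Ph (-r) ≤ r := by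
  rw [Ph_sub (-r) r (by linarith)]
  have h3 : ∫ x in (-r)..r, (1 / 2 : ℝ) = r := by
    rw [intervalIntegral.integral_const, smul_eq_mul]; ring
  conv_rhs => rw [← h3]
  apply intervalIntegral.integral_mono_on (by linarith)
    (φ_cont.intervalIntegrable _ _) intervalIntegrable_const
  intro x _
  rw [φ_eq]
  have h1 : Real.exp (-(x ^ 2 / 2)) ≤ 1 := Real.exp_le_one_iff.2 (by nlinarith [sq_nonneg x])
  have h2 : (Real.sqrt (2 * Real.pi))⁻¹ ≤ 1 / 2 := by
    rw [one_div]
    apply inv_anti₀ (by norm_num)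
    apply Real.le_sqrt_of_sq_le
    linarith [Real.pi_gt_three]
  have h0 : 0 ≤ (Real.sqrt (2 * Real.pi))⁻¹ := by positivity
  nlinarith

theorem compl_meas {A : ℝ} (hA : 0 ≤ A) :
    gaussianReal 0 1 (Icc (-A) A)ᶜ = ENNReal.ofReal (2 * Ph (-A)) := by
  rw [prob_compl_eq_one_sub measurableSet_Icc, meas_Icc (-A) A (by linarith),
    ← ENNReal.ofReal_one, ← ENNReal.ofReal_sub _ (sub_nonneg.2 (Ph_mono (by linarith)))]
  congr 1
  rw [Ph_neg]; ring

/-- the comparison at a fixed level -/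
theorem compare (p : ℝ) (hp0 : 0 < p) : ∃ ρ : ℝ, 0 < ρ ∧ ρ ≤ 1 ∧
    ∀ (M : ℕ) (K : Set (EE (M + 1))), IsClosed K → Convex ℝ K →
      p ≤ (stdGaussian (EE (M + 1)) K).toReal → ∀ u : EE (M + 1), ‖u‖ ≤ ρ →
        stdGaussian (EE (M + 1)) K ≤ stdGaussian (EE (M + 1)) (trans K u) := by
  -- constants
  obtain ⟨T, hT1, hT⟩ : ∃ T : ℝ, 1 ≤ T ∧ Ph (-T) ≤ p / 2 := by
    have h1 : Tendsto (fun T : ℝ => Ph (-T)) atTop (𝓝 0) := Ph_bot.comp tendsto_neg_atTop_atBot
    have h2 := (h1.eventually (gt_mem_nhds (half_pos hp0))).and (eventually_ge_atTop (1:ℝ))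
    obtain ⟨T, h3, h4⟩ := h2.exists
    exact ⟨T, h4, h3.le⟩
  obtain ⟨A, hA1, hA⟩ : ∃ A : ℝ, 1 ≤ A ∧ 2 * Ph (-A) < Ph (-(2 * T)) := by
    have h1 : Tendsto (fun T : ℝ => 2 * Ph (-T)) atTop (𝓝 (2 * 0)) :=
      (Ph_bot.comp tendsto_neg_atTop_atBot).const_mul 2
    rw [mul_zero] at h1
    have h2 := (h1.eventually (gt_mem_nhds (Ph_pos (-(2 * T))))).and (eventually_ge_atTop (1:ℝ))
    obtain ⟨A, h3, h4⟩ := h2.exists
    exact ⟨A, h4, h3⟩
  have hφ := φ_pos (A + 1)
  obtain ⟨k, hk⟩ := exists_nat_gt (4 / (p * φ (A + 1)))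
  have hk0 : (0:ℝ) < k := lt_of_le_of_lt (by positivity) hk
  have hk1 : 0 < k := by exact_mod_cast hk0
  have hkp : 4 ≤ k * p * φ (A + 1) := by
    rw [div_lt_iff₀ (by positivity)] at hk; linarith
  have hT0 : 0 < T := by linarith
  set q := max (k / T) (2 * T) with hq
  have hq1 : k / T ≤ q := le_max_left _ _
  have hq2 : 2 * T ≤ q := le_max_right _ _
  set h := T / k with hh
  have hh0 : 0 < h := div_pos hT0 hk0
  have hqh : 1 ≤ q * h := by
    have : k / T * h = 1 := by rw [hh]; field_simp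
    rw [← this]; exact mul_le_mul_of_nonneg_right hq1 hh0.le
  refine ⟨min 1 (Ph (-q)), lt_min one_pos (Ph_pos _), min_le_left _ _, ?_⟩
  intro M K hK hc hKp u hu
  by_cases hu0 : u = 0
  · unfold trans; rw [if_pos hu0]
  set r := ‖u‖ with hr
  have hr0 : 0 < r := norm_pos_iff.2 hu0
  have hr1 : r ≤ 1 := hu.trans (min_le_left _ _)
  have hr2 : r ≤ Ph (-q) := hu.trans (min_le_right _ _)
  set e := ‖u‖⁻¹ • u with he
  have he1 : ‖e‖ = 1 := by
    rw [he, norm_smul, norm_inv, norm_norm]; exact inv_mul_cancel₀ hr0.ne'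
  have hue : u = r • e := by
    rw [he, ← hr, smul_smul, mul_inv_cancel₀ hr0.ne', one_smul]
  obtain ⟨b, hb⟩ := Orthonormal.exists_orthonormalBasis_extension_of_card_eq
    (𝕜 := ℝ) (E := EE (M + 1)) (ι := Fin (M + 1)) (by simp) (v := fun _ => e) (s := {0}) (by
      constructor
      · rintro ⟨i, hi⟩; simpa using he1
      · rintro ⟨i, hi⟩ ⟨j, hj⟩ hij
        exfalso; apply hij
        rw [mem_singleton_iff] at hi hj
        exact Subtype.ext (hi.trans hj.symm))
  have hb0 : b 0 = e := hb 0 rfl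
  have mm := my_meas (b := b) hK.measurableSet
  -- the level
  set pr := Ph r - Ph (-r) with hpr
  have hpr0 : 0 < pr := by rw [hpr]; linarith [Ph_strict (show -r < r by linarith)]
  have hprr : pr ≤ r := Ph_slope_le hr0.le
  have hpr1 : pr < 1 := by rw [hpr]; linarith [Ph_lt_one r, Ph_pos (-r)]
  set s := Ps pr with hs
  have hPs : Ph s = pr := Ph_Ps hpr0 hpr1
  have hsq : s ≤ -q := by
    rw [← Ph_strict.le_iff_le, hPs]; linarith
  -- the loss
  set W := NN K b (-(2 * T)) - NN K b (-T) with hW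
  have hW0 : 0 ≤ W := by
    rw [hW]; linarith [NN_anti (K := K) (b := b) (show -(2 * T) ≤ -T by linarith)]
  have hκ : p / 2 ≤ NN K b (-T) := by
    have := NN_lower (b := b) hK (-T)
    linarith
  set B := 2 / (k * p) * W with hB
  have hB0 : 0 ≤ B := by rw [hB]; positivity
  have hloss := loss_le (gm M) mm (h := h) (q := q) (B := B) hh0 hqh hB0 (by
    intro s' hs'
    rw [NN_window hK (by linarith)]
    apply ENNReal.ofReal_le_ofReal
    have := windows (N := NN K b) NN_anti NN_nonneg NN_le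
      (fun a d t h0 h1 => NN_logconc hK hc a d t h0 h1) hT0 k hk1 hκ (s := s') (by linarith)
    rw [← hh, ← hW] at this
    rw [hB, div_mul_eq_mul_div, le_div_iff₀ (by positivity)]
    linarith) hsq
  rw [hPs] at hloss
  -- the window carrying the gain
  set W2 := Ev (my K b) (-(2 * T)) \ Ev (my K b) (-T) with hW2
  have mW2 : MeasurableSet W2 := (Ev_meas mm _).diff (Ev_meas mm _)
  have hW2m : gm M W2 = ENNReal.ofReal W := NN_window hK (by linarith)
  have hW2s : W2 ⊆ Ev (my K b) s := sdiff_subset.trans (Ev_anti _ (by linarith))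
  set c := ENNReal.ofReal (r * φ (A + 1)) with hcdef
  have hloss2 : ∫⁻ y in (Ev (my K b) s)ᶜ, my K b y ∂(gm M) ≤ c * gm M W2 := by
    refine hloss.trans ?_
    rw [hW2m, hcdef, ← ENNReal.ofReal_mul (by positivity)]
    apply ENNReal.ofReal_le_ofReal
    have e1 : 2 * B * pr ≤ 2 * B * r := mul_le_mul_of_nonneg_left hprr (by positivity)
    refine e1.trans ?_
    have e2 : 2 * B * r = (4 / (k * p)) * (r * W) := by rw [hB]; ring
    rw [e2, div_mul_eq_mul_div, div_le_iff₀ (by positivity)]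
    have e3 : 4 * (r * W) ≤ (k * p * φ (A + 1)) * (r * W) :=
      mul_le_mul_of_nonneg_right hkp (by positivity)
    linarith
  -- the measurable part of the transform
  set S : Set (EE (M + 1)) := {x | x ∈ sg K u (-1) 1 ∧
    (fun j => inner ℝ (b (Fin.succ j)) x : Fin M → ℝ) ∈ Ev (my K b) s} with hS
  have mS : MeasurableSet S := by
    apply (sg_closed hK u (-1) 1).measurableSet.inter
    have hf : Measurable (fun x : EE (M + 1) => (fun j => inner ℝ (b (Fin.succ j)) x : Fin M → ℝ)) := by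
      fun_prop
    exact hf (Ev_meas mm s)
  have hin0 : ∀ (y : Fin M → ℝ) (j : Fin M), inner ℝ (b (Fin.succ j)) (wy b y) = y j := by
    intro y j
    unfold wy
    rw [inner_sum]
    simp only [inner_smul_right]
    rw [Finset.sum_eq_single j]
    · rw [b.orthonormal.1 |> fun h => real_inner_self_eq_norm_sq (b (Fin.succ j)), b.orthonormal.1]
      simp
    · intro i _ hij
      rw [b.orthonormal.2 (fun h => hij (Fin.succ_injective _ h).symm), mul_zero]
    · intro h; exact absurd (Finset.mem_univ j) h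
  have hin1 : ∀ (y : Fin M → ℝ), inner ℝ (b 0) (wy b y) = 0 := by
    intro y
    unfold wy
    rw [inner_sum]
    apply Finset.sum_eq_zero
    intro i _
    rw [inner_smul_right, b.orthonormal.2 (Fin.succ_ne_zero i).symm, mul_zero]
  have hSsub : S ⊆ trans K u := by
    rintro x ⟨⟨k0, hk0, t, ht, rfl⟩, hx2⟩
    unfold trans
    rw [if_neg hu0]
    constructor
    · refine Set.mem_add.2 ⟨k0, hk0, t • u, ?_, rfl⟩
      refine ⟨(1 - t) / 2, (1 + t) / 2, by linarith [ht.2], by linarith [ht.1], by ring, ?_⟩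
      module
    · set x := k0 + t • u with hx
      set y : Fin M → ℝ := fun j => inner ℝ (b (Fin.succ j)) x with hy
      refine Set.mem_add.2 ⟨wy b y, ⟨?_, ?_⟩, (inner ℝ (b 0) x / r) • u, ⟨_, rfl⟩, ?_⟩
      · rw [hue, inner_smul_left, ← hb0, hin1, mul_zero]
      · rw [meas_Icc _ _ (by linarith [hr0]), ← hr, ← hpr, ← hPs]
        have : chord K u (wy b y) = Iy K b y := by
          ext z
          show wy b y + z • (‖u‖⁻¹ • u) ∈ K ↔ z • b 0 + wy b y ∈ K
          rw [hb0, add_comm (wy b y)]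
        rw [this]
        exact hx2
      · have h1 := b.sum_repr' x
        rw [Fin.sum_univ_succ] at h1
        have h2 : (inner ℝ (b 0) x / r) • u = (inner ℝ (b 0) x) • b 0 := by
          rw [hb0]
          conv_lhs => rw [hue]
          rw [smul_smul, div_mul_cancel₀ _ hr0.ne']
        show wy b y + (inner ℝ (b 0) x / r) • u = x
        rw [h2, add_comm (wy b y)]
        exact h1
  refine le_trans ?_ (measure_mono hSsub)
  rw [fubini M b K hK.measurableSet, fubini M b S mS]
  change ∫⁻ y, my K b y ∂(gm M) ≤ ∫⁻ y, gaussianReal 0 1 {z : ℝ | z • b 0 + wy b y ∈ S} ∂(gm M)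
  have hpt : ∀ y ∈ Ev (my K b) s, my K b y + W2.indicator (fun _ => c) y ≤
      gaussianReal 0 1 {z : ℝ | z • b 0 + wy b y ∈ S} := by
    intro y hy
    have hco : ∀ z : ℝ, (fun j => inner ℝ (b (Fin.succ j)) (z • b 0 + wy b y) : Fin M → ℝ) = y := by
      intro z
      funext j
      rw [inner_add_right, inner_smul_right, b.orthonormal.2 (Fin.succ_ne_zero j), mul_zero,
        zero_add, hin0]
    have hJ : ∀ x ∈ Iy K b y, ∀ t ∈ Icc (-r) r, x + t ∈ {z : ℝ | z • b 0 + wy b y ∈ S} := by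
      intro x hx t ht
      refine ⟨⟨x • b 0 + wy b y, hx, t / r, ⟨?_, ?_⟩, ?_⟩, ?_⟩
      · rw [le_div_iff₀ hr0]; linarith [ht.1]
      · rw [div_le_iff₀ hr0]; linarith [ht.2]
      · conv_rhs => rw [hue]
        rw [smul_smul, div_mul_cancel₀ _ hr0.ne', hb0, add_smul]; abel
      · rw [hco]; exact hy
    by_cases hy2 : y ∈ W2
    · rw [indicator_of_mem hy2]
      apply gain (Iy_closed hK y) (Iy_ord hc y) hr0.le hr1 _ _ hJ
      · rw [compl_meas (by linarith)]
        refine lt_of_lt_of_le ?_ hy2.1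
        rw [ENNReal.ofReal_lt_ofReal_iff (Ph_pos _)]
        exact hA
      · have h1 : my K b y < ENNReal.ofReal (Ph (-T)) := not_le.1
          (show ¬ ENNReal.ofReal (Ph (-T)) ≤ my K b y from hy2.2)
        refine h1.trans_le ?_
        rw [meas_Icc (-A) A (by linarith)]
        apply ENNReal.ofReal_le_ofReal
        have h2 : Ph (-(2 * T)) ≤ Ph (-T) := Ph_mono (by linarith)
        have h3 : Ph (-T) ≤ Ph 0 := Ph_mono (by linarith)
        have h4 := Ph_neg 0
        rw [neg_zero] at h4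
        have h5 := Ph_neg A
        linarith
    · rw [indicator_of_notMem hy2, add_zero]
      apply measure_mono
      intro x hx
      have := hJ x hx 0 ⟨by linarith, hr0.le⟩
      rwa [add_zero] at this
  calc ∫⁻ y, my K b y ∂(gm M)
      = ∫⁻ y in Ev (my K b) s, my K b y ∂(gm M) + ∫⁻ y in (Ev (my K b) s)ᶜ, my K b y ∂(gm M) :=
        (lintegral_add_compl _ (Ev_meas mm s)).symm
    _ ≤ ∫⁻ y in Ev (my K b) s, my K b y ∂(gm M) + c * gm M W2 := add_le_add le_rfl hloss2
    _ = ∫⁻ y in Ev (my K b) s, my K b y ∂(gm M) +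
        ∫⁻ y in Ev (my K b) s, W2.indicator (fun _ => c) y ∂(gm M) := by
        rw [lintegral_indicator mW2, setLIntegral_const, Measure.restrict_apply mW2,
          inter_eq_self_of_subset_left hW2s]
    _ = ∫⁻ y in Ev (my K b) s, (my K b y + W2.indicator (fun _ => c) y) ∂(gm M) :=
        (lintegral_add_left mm _).symm
    _ ≤ ∫⁻ y in Ev (my K b) s, gaussianReal 0 1 {z : ℝ | z • b 0 + wy b y ∈ S} ∂(gm M) :=
        setLIntegral_mono' (Ev_meas mm s) hpt
    _ ≤ _ := setLIntegral_le_lintegral _ _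

end Pool.Agent.R755.Tr
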