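import Pool.Agent.H460BZ.Chord

/-!
# Ehrhard's inequality for intervals of the real line
-/

set_option autoImplicit false

namespace Pool.Agent.R755.Tr

open MeasureTheory ProbabilityTheory Set Filter Topology
open Pool.Agent.H460BZ (φ φ_eq φ_cont φ_nonneg)

/-- the distribution function of the standard Gaussian measure -/
noncomputable def Ph (x : ℝ) : ℝ := cdf (gaussianReal 0 1) x

theorem φ_pos (x : ℝ) : 0 < φ x := by
  rw [φ_eq]; positivity

theorem φ_even (x : ℝ) : φ (-x) = φ x := by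
  rw [φ_eq, φ_eq]; simp

theorem Ph_real (x : ℝ) : Ph x = (gaussianReal 0 1).real (Iic x) := cdf_eq_real _ _

theorem Ph_mono : Monotone Ph := monotone_cdf _

theorem Ph_top : Tendsto Ph atTop (𝓝 1) := tendsto_cdf_atTop _

theorem Ph_bot : Tendsto Ph atBot (𝓝 0) := tendsto_cdf_atBot _

theorem meas_Ioc (a b : ℝ) (hab : a ≤ b) :
    gaussianReal 0 1 (Ioc a b) = ENNReal.ofReal (Ph b - Ph a) := by
  have h : Iic b \ Iic a = Ioc a b := by ext x; simp [and_comm]
  rw [Ph_real, Ph_real, ← h, Measure.real, Measure.real,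
    ← ENNReal.toReal_sub_of_le (measure_mono (Iic_subset_Iic.2 hab)) (measure_ne_top _ _),
    ENNReal.ofReal_toReal, measure_sdiff (Iic_subset_Iic.2 hab) measurableSet_Iic.nullMeasurableSet
      (measure_ne_top _ _)]
  exact ne_top_of_le_ne_top (measure_ne_top _ _) tsub_le_self

theorem meas_Icc (a b : ℝ) (hab : a ≤ b) :
    gaussianReal 0 1 (Icc a b) = ENNReal.ofReal (Ph b - Ph a) := by
  have : NullSingletonClass (gaussianReal 0 1) := nullSingletonClass_gaussianReal one_ne_zero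
  rw [← meas_Ioc a b hab, ← measure_congr Ioc_ae_eq_Icc]

theorem Ph_sub (a b : ℝ) (hab : a ≤ b) : Ph b - Ph a = ∫ x in a..b, φ x := by
  have h1 := meas_Ioc a b hab
  rw [Pool.Agent.H460BZ.meas_Ioc a b hab] at h1
  have h2 : 0 ≤ ∫ x in a..b, φ x :=
    intervalIntegral.integral_nonneg hab (fun x _ => φ_nonneg x)
  have h3 : 0 ≤ Ph b - Ph a := sub_nonneg.2 (Ph_mono hab)
  exact ((ENNReal.ofReal_eq_ofReal_iff h2 h3).1 h1).symm

theorem Ph_eq (c x : ℝ) : Ph x = Ph c + ∫ s in c..x, φ s := by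
  rcases le_total c x with h | h
  · have := Ph_sub c x h; linarith
  · have := Ph_sub x c h
    rw [intervalIntegral.integral_symm]; linarith

theorem Ph_deriv (x : ℝ) : HasDerivAt Ph (φ x) x := by
  have h1 : HasDerivAt (fun u => ∫ s in (0:ℝ)..u, φ s) (φ x) x :=
    intervalIntegral.integral_hasDerivAt_right (φ_cont.intervalIntegrable _ _)
      (φ_cont.stronglyMeasurableAtFilter _ _) φ_cont.continuousAt
  have h2 : Ph = fun u => Ph 0 + ∫ s in (0:ℝ)..u, φ s := funext (Ph_eq 0)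
  rw [h2]
  exact h1.const_add _

theorem Ph_cont : Continuous Ph := by
  rw [continuous_iff_continuousAt]; exact fun x => (Ph_deriv x).continuousAt

theorem Ph_strict : StrictMono Ph := by
  apply strictMono_of_deriv_pos
  intro x; rw [(Ph_deriv x).deriv]; exact φ_pos x

theorem Ph_pos (x : ℝ) : 0 < Ph x := by
  have h1 : 0 ≤ Ph (x - 1) := cdf_nonneg _ _
  exact h1.trans_lt (Ph_strict (by linarith))

theorem Ph_lt_one (x : ℝ) : Ph x < 1 := by
  have h1 : Ph (x + 1) ≤ 1 := cdf_le_one _ _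
  exact (Ph_strict (by linarith)).trans_le h1

theorem Ph_neg (x : ℝ) : Ph (-x) = 1 - Ph x := by
  have h1 : ∀ y, HasDerivAt (fun s => Ph (-s) + Ph s) 0 y := by
    intro y
    have h2 : HasDerivAt (fun s => Ph (-s)) (φ (-y) * (-1)) y :=
      (Ph_deriv (-y)).comp y (hasDerivAt_neg y)
    have h3 := h2.add (Ph_deriv y)
    rw [φ_even] at h3
    exact h3.congr_deriv (by ring)
  have h2 : ∀ y, Ph (-y) + Ph y = Ph (-x) + Ph x := fun y =>
    is_const_of_deriv_eq_zero (fun y => (h1 y).differentiableAt) (fun y => (h1 y).deriv) y x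
  have h3 : Tendsto (fun s => Ph (-s) + Ph s) atTop (𝓝 (0 + 1)) :=
    (Ph_bot.comp tendsto_neg_atTop_atBot).add Ph_top
  have h4 : Tendsto (fun s => Ph (-s) + Ph s) atTop (𝓝 (Ph (-x) + Ph x)) := by
    rw [show (fun s => Ph (-s) + Ph s) = fun _ => Ph (-x) + Ph x from funext h2]
    exact tendsto_const_nhds
  have := tendsto_nhds_unique h3 h4
  linarith

/-! ### the inverse function -/

/-- the inverse of the distribution function -/
noncomputable def Ps (m : ℝ) : ℝ := Function.invFun Ph m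

theorem Ps_Ph (x : ℝ) : Ps (Ph x) = x := Function.leftInverse_invFun Ph_strict.injective x

theorem Ph_Ps {m : ℝ} (h0 : 0 < m) (h1 : m < 1) : Ph (Ps m) = m := by
  apply Function.invFun_eq
  have e0 := (Ph_bot.eventually (gt_mem_nhds h0)).exists
  have e1 := (Ph_top.eventually (lt_mem_nhds h1)).exists
  obtain ⟨a, ha⟩ := e0
  obtain ⟨b, hb⟩ := e1
  obtain ⟨c, -, hc⟩ := intermediate_value_uIcc (a := a) (b := b) Ph_cont.continuousOn
    (by rw [uIcc_of_le (ha.le.trans hb.le)]; exact ⟨ha.le, hb.le⟩ : m ∈ uIcc (Ph a) (Ph b))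
  exact ⟨c, hc⟩

theorem Ps_le_iff {m x : ℝ} (h0 : 0 < m) (h1 : m < 1) : x ≤ Ps m ↔ Ph x ≤ m := by
  conv_rhs => rw [← Ph_Ps h0 h1]
  exact Ph_strict.le_iff_le.symm

theorem Ps_lt_iff {m x : ℝ} (h0 : 0 < m) (h1 : m < 1) : x < Ps m ↔ Ph x < m := by
  conv_rhs => rw [← Ph_Ps h0 h1]
  exact Ph_strict.lt_iff_lt.symm

theorem lt_Ps_iff {m x : ℝ} (h0 : 0 < m) (h1 : m < 1) : Ps m < x ↔ m < Ph x := by
  conv_rhs => rw [← Ph_Ps h0 h1]
  exact Ph_strict.lt_iff_lt.symm

theorem Ps_contAt {m : ℝ} (h0 : 0 < m) (h1 : m < 1) : ContinuousAt Ps m := by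
  rw [Metric.continuousAt_iff]
  intro ε hε
  have hm := Ph_Ps h0 h1
  have ha : Ph (Ps m - ε) < m := by
    conv_rhs => rw [← hm]
    exact Ph_strict (by linarith)
  have hb : m < Ph (Ps m + ε) := by
    conv_lhs => rw [← hm]
    exact Ph_strict (by linarith)
  refine ⟨min (m - Ph (Ps m - ε)) (Ph (Ps m + ε) - m), by
    rw [gt_iff_lt, lt_min_iff]; constructor <;> linarith, ?_⟩
  intro y hy
  rw [Real.dist_eq, abs_lt] at hy
  have hy1 : Ph (Ps m - ε) < y := by
    have := min_le_left (m - Ph (Ps m - ε)) (Ph (Ps m + ε) - m)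
    linarith [hy.1]
  have hy2 : y < Ph (Ps m + ε) := by
    have := min_le_right (m - Ph (Ps m - ε)) (Ph (Ps m + ε) - m)
    linarith [hy.2]
  have hy0 : 0 < y := (Ph_pos _).trans hy1
  have hy3 : y < 1 := hy2.trans (Ph_lt_one _)
  rw [Real.dist_eq, abs_lt]
  have e1 := (Ps_lt_iff hy0 hy3).2 hy1
  have e2 := (lt_Ps_iff hy0 hy3).2 hy2
  constructor <;> linarith

theorem Ps_deriv {m : ℝ} (h0 : 0 < m) (h1 : m < 1) : HasDerivAt Ps (φ (Ps m))⁻¹ m := by
  apply HasDerivAt.of_local_left_inverse (Ps_contAt h0 h1) (Ph_deriv _) (φ_pos _).ne'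
  filter_upwards [Ioo_mem_nhds h0 h1] with y hy
  exact Ph_Ps hy.1 hy.2

/-! ### the basic one dimensional inequality -/

theorem φ_deriv (x : ℝ) : HasDerivAt φ (-(x * φ x)) x := by
  have h1 : φ = fun x => (Real.sqrt (2 * Real.pi))⁻¹ * Real.exp (-(x ^ 2 / 2)) := funext φ_eq
  have h2 : HasDerivAt (fun x : ℝ => -(x ^ 2 / 2)) (-x) x := by
    have := ((hasDerivAt_pow 2 x).div_const 2).neg
    exact this.congr_deriv (by norm_num)
  have h3 := (h2.exp).const_mul (Real.sqrt (2 * Real.pi))⁻¹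
  rw [h1]
  exact h3.congr_deriv (by ring)

/-- `φ(x)/x` -/
noncomputable def fM (x : ℝ) : ℝ := φ x / x

theorem fM_deriv {x : ℝ} (hx : 0 < x) : HasDerivAt fM (-(φ x * (1 + 1 / x ^ 2))) x := by
  have := (φ_deriv x).div (hasDerivAt_id x) hx.ne'
  refine this.congr_deriv ?_
  simp only [id]
  field_simp
  ring

theorem step1 {z x : ℝ} (hz : 0 < z) (hzx : z ≤ x) :
    (1 + 1 / x ^ 2) * (Ph x - Ph z) ≤ fM z - fM x := by
  have hx : 0 < x := hz.trans_le hzx
  have h : AntitoneOn (fun s => fM s + (1 + 1 / x ^ 2) * Ph s) (Icc z x) := by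
    apply antitoneOn_of_deriv_nonpos (convex_Icc _ _)
    · intro s hs
      exact ((fM_deriv (hz.trans_le hs.1)).add
        ((Ph_deriv s).const_mul _)).continuousAt.continuousWithinAt
    · intro s hs
      rw [interior_Icc] at hs
      exact ((fM_deriv (hz.trans hs.1)).add
        ((Ph_deriv s).const_mul _)).differentiableAt.differentiableWithinAt
    · intro s hs
      rw [interior_Icc] at hs
      have hs0 : 0 < s := hz.trans hs.1
      have hd : HasDerivAt (fun s => fM s + (1 + 1 / x ^ 2) * Ph s)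
          (-(φ s * (1 + 1 / s ^ 2)) + (1 + 1 / x ^ 2) * φ s) s :=
        (fM_deriv hs0).add ((Ph_deriv s).const_mul _)
      rw [hd.deriv]
      have h1 : 1 / x ^ 2 ≤ 1 / s ^ 2 :=
        one_div_le_one_div_of_le (by positivity) (pow_le_pow_left₀ hs0.le hs.2.le 2)
      have h2 := φ_pos s
      nlinarith
  have := h ⟨le_rfl, hzx⟩ ⟨hzx, le_rfl⟩ hzx
  simp only at this
  nlinarith

theorem fM_tendsto : Tendsto fM atTop (𝓝 0) := by
  have h1 : ∀ x : ℝ, φ x ≤ (Real.sqrt (2 * Real.pi))⁻¹ := by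
    intro x
    rw [φ_eq]
    have : Real.exp (-(x ^ 2 / 2)) ≤ 1 := Real.exp_le_one_iff.2 (by nlinarith [sq_nonneg x])
    have h0 : 0 ≤ (Real.sqrt (2 * Real.pi))⁻¹ := by positivity
    nlinarith
  have h2 : Tendsto (fun x : ℝ => (Real.sqrt (2 * Real.pi))⁻¹ * x⁻¹) atTop (𝓝 0) := by
    have := tendsto_inv_atTop_zero.const_mul (Real.sqrt (2 * Real.pi))⁻¹
    simpa using this
  apply tendsto_of_tendsto_of_tendsto_of_le_of_le' tendsto_const_nhds h2
  · filter_upwards [eventually_gt_atTop 0] with x hx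
    exact div_nonneg (φ_nonneg x) hx.le
  · filter_upwards [eventually_gt_atTop 0] with x hx
    unfold fM
    rw [div_eq_mul_inv]
    exact mul_le_mul_of_nonneg_right (h1 x) (by positivity)

theorem step2 {y : ℝ} (hy : 0 < y) : fM y ≤ (1 + 1 / y ^ 2) * Ph (-y) := by
  have h : MonotoneOn (fun s => fM s - (1 + 1 / y ^ 2) * (1 - Ph s)) (Ici y) := by
    have hd : ∀ s, 0 < s → HasDerivAt (fun s => fM s - (1 + 1 / y ^ 2) * (1 - Ph s))
        (-(φ s * (1 + 1 / s ^ 2)) - (1 + 1 / y ^ 2) * (-(φ s))) s := fun s hs =>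
      (fM_deriv hs).sub (((Ph_deriv s).const_sub 1).const_mul _)
    apply monotoneOn_of_deriv_nonneg (convex_Ici _)
    · intro s hs
      exact (hd s (hy.trans_le hs)).continuousAt.continuousWithinAt
    · intro s hs
      rw [interior_Ici] at hs
      exact (hd s (hy.trans hs)).differentiableAt.differentiableWithinAt
    · intro s hs
      rw [interior_Ici] at hs
      have hs0 : 0 < s := hy.trans hs
      rw [(hd s hs0).deriv]
      have h1 : 1 / s ^ 2 ≤ 1 / y ^ 2 :=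
        one_div_le_one_div_of_le (by positivity) (pow_le_pow_left₀ hy.le (le_of_lt hs) 2)
      have h2 := φ_pos s
      nlinarith
  have h3 : Tendsto (fun s => fM s - (1 + 1 / y ^ 2) * (1 - Ph s)) atTop
      (𝓝 (0 - (1 + 1 / y ^ 2) * (1 - 1))) :=
    fM_tendsto.sub ((tendsto_const_nhds.sub Ph_top).const_mul _)
  have h4 : fM y - (1 + 1 / y ^ 2) * (1 - Ph y) ≤ 0 - (1 + 1 / y ^ 2) * (1 - 1) := by
    apply ge_of_tendsto h3
    filter_upwards [eventually_ge_atTop y] with s hs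
    exact h self_mem_Ici hs hs
  rw [Ph_neg]
  linarith

theorem superadd_aux {x y z : ℝ} (hx : 0 < x) (hxy : x ≤ y) (hz : 0 < z)
    (h : Ph (-z) = Ph (-x) + Ph (-y)) : fM x + fM y ≤ fM z := by
  have hy : 0 < y := hx.trans_le hxy
  have hzx : z < x := by
    have : Ph (-x) < Ph (-z) := by rw [h]; linarith [Ph_pos (-y)]
    have := Ph_strict.lt_iff_lt.1 this
    linarith
  have h1 := step1 hz hzx.le
  have h2 := step2 hy
  have h3 : Ph x - Ph z = Ph (-y) := by
    rw [Ph_neg, Ph_neg] at h; linarith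
  rw [h3] at h1
  have h4 : 1 / y ^ 2 ≤ 1 / x ^ 2 :=
    one_div_le_one_div_of_le (by positivity) (pow_le_pow_left₀ hx.le hxy 2)
  have h5 := Ph_pos (-y)
  nlinarith

theorem superadd {x y z : ℝ} (hx : 0 < x) (hy : 0 < y) (hz : 0 < z)
    (h : Ph (-z) = Ph (-x) + Ph (-y)) : fM x + fM y ≤ fM z := by
  rcases le_total x y with hxy | hxy
  · exact superadd_aux hx hxy hz h
  · rw [add_comm (fM x)]
    exact superadd_aux hy hxy hz (by rw [h, add_comm])

/-- `x/φ(x)` -/
noncomputable def G (x : ℝ) : ℝ := x / φ x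

theorem G_odd (x : ℝ) : G (-x) = -G x := by
  unfold G; rw [φ_even]; ring

theorem G_pos {x : ℝ} (hx : 0 < x) : 0 < G x := div_pos hx (φ_pos x)

theorem G_zero : G 0 = 0 := by unfold G; simp

theorem G_mono : Monotone G := by
  have hd : ∀ x, HasDerivAt G ((1 * φ x - x * (-(x * φ x))) / φ x ^ 2) x := fun x =>
    (hasDerivAt_id x).div (φ_deriv x) (φ_pos x).ne'
  apply monotone_of_deriv_nonneg (fun x => (hd x).differentiableAt)
  intro x
  rw [(hd x).deriv]
  have := φ_pos x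
  have h2 : 0 ≤ 1 * φ x - x * (-(x * φ x)) := by nlinarith [mul_nonneg (mul_self_nonneg x) this.le]
  positivity

theorem fM_G {x : ℝ} (hx : 0 < x) : fM x = 1 / G x := by
  unfold fM G; rw [one_div_div]

theorem e2_aux {x y z : ℝ} (h : Ph z + Ph x + Ph y = 1) (hz : 0 ≤ z) :
    0 ≤ G z * G x + G z * G y + G x * G y := by
  have hh : Ph 0 = 1 / 2 := by
    have := Ph_neg 0
    rw [neg_zero] at this; linarith
  have hz2 : 1 / 2 ≤ Ph z := by rw [← hh]; exact Ph_mono hz
  have hx : x < 0 := by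
    rw [← Ph_strict.lt_iff_lt, hh]; linarith [Ph_pos y]
  have hy : y < 0 := by
    rw [← Ph_strict.lt_iff_lt, hh]; linarith [Ph_pos x]
  have e1 : G x = -G (-x) := by rw [G_odd]; ring
  have e2 : G y = -G (-y) := by rw [G_odd]; ring
  have p1 : 0 < G (-x) := G_pos (by linarith)
  have p2 : 0 < G (-y) := G_pos (by linarith)
  rcases hz.eq_or_lt with h0 | h0
  · rw [← h0, G_zero, e1, e2]
    nlinarith [mul_pos p1 p2]
  · have key := superadd (x := -x) (y := -y) (z := z) (by linarith) (by linarith) h0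
      (by rw [neg_neg, neg_neg, Ph_neg]; linarith)
    rw [fM_G (by linarith), fM_G (by linarith), fM_G h0] at key
    have p3 := G_pos h0
    rw [e1, e2]
    rw [div_add_div _ _ p1.ne' p2.ne', div_le_div_iff₀ (mul_pos p1 p2) p3] at key
    nlinarith

theorem e2_nonneg {x y z : ℝ} (h : Ph x + Ph y + Ph z = 1) :
    0 ≤ G x * G y + G x * G z + G y * G z := by
  rcases le_or_gt 0 x with hx | hx
  · have := e2_aux (z := x) (x := y) (y := z) h hx; linarith
  rcases le_or_gt 0 y with hy | hy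
  · have := e2_aux (z := y) (x := x) (y := z) (by linarith) hy; linarith
  rcases le_or_gt 0 z with hz | hz
  · have := e2_aux (z := z) (x := x) (y := y) (by linarith) hz; linarith
  have e1 : G x = -G (-x) := by rw [G_odd]; ring
  have e2 : G y = -G (-y) := by rw [G_odd]; ring
  have e3 : G z = -G (-z) := by rw [G_odd]; ring
  have p1 : 0 < G (-x) := G_pos (by linarith)
  have p2 : 0 < G (-y) := G_pos (by linarith)
  have p3 : 0 < G (-z) := G_pos (by linarith)
  rw [e1, e2, e3]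
  nlinarith [mul_pos p1 p2, mul_pos p1 p3, mul_pos p2 p3]

theorem G_add_le {x y : ℝ} (h : Ph x + Ph y ≤ 1) : G x + G y ≤ 0 := by
  have h1 : Ph x ≤ Ph (-y) := by rw [Ph_neg]; linarith
  have h2 : x ≤ -y := Ph_strict.le_iff_le.1 h1
  have h3 := G_mono h2
  rw [G_odd] at h3
  linarith

/-- the quadratic form of the second derivative is nonpositive -/
theorem quad {a b t : ℝ} (h : Ph t = Ph b - Ph a) (A B : ℝ) :
    G a * A ^ 2 - G b * B ^ 2 + G t * (B - A) ^ 2 ≤ 0 := by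
  have hs : Ph a + Ph t + Ph (-b) = 1 := by rw [h, Ph_neg]; ring
  have h1 : G a + G t ≤ 0 := G_add_le (by linarith [Ph_pos (-b)])
  have h2 : G (-b) + G t ≤ 0 := G_add_le (by linarith [Ph_pos a])
  have h3 := e2_nonneg hs
  rw [G_odd] at h2 h3
  -- `P A² + R B² - 2 g A B ≤ 0` with `P, R ≤ 0`, `P R ≥ g²`
  set P := G a + G t with hP
  set R := -G b + G t with hR
  set g := G t with hg
  have h4 : g ^ 2 ≤ P * R := by
    rw [hP, hR]; nlinarith
  have e : G a * A ^ 2 - G b * B ^ 2 + g * (B - A) ^ 2 = P * A ^ 2 + R * B ^ 2 - 2 * g * (A * B) := by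
    rw [hP, hR]; ring
  rw [e]
  rcases h1.eq_or_lt with h0 | h0
  · rw [h0] at h4 ⊢
    have hg0 : g = 0 := by nlinarith [sq_nonneg g]
    rw [hg0]
    nlinarith [sq_nonneg B]
  · have h5 : P * (P * A ^ 2 + R * B ^ 2 - 2 * g * (A * B)) =
      (P * A - g * B) ^ 2 + (P * R - g ^ 2) * B ^ 2 := by ring
    have h6 : 0 ≤ (P * A - g * B) ^ 2 + (P * R - g ^ 2) * B ^ 2 := by
      have := sub_nonneg.2 h4
      positivity
    rw [← h5] at h6
    by_contra hcon
    push Not at hcon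
    nlinarith [mul_neg_of_neg_of_pos h0 hcon]

/-- Ehrhard's inequality for compact intervals -/
theorem ehr_int {a0 b0 a1 b1 s0 s1 l : ℝ} (h0 : a0 < b0) (h1 : a1 < b1)
    (hs0 : Ph s0 ≤ Ph b0 - Ph a0) (hs1 : Ph s1 ≤ Ph b1 - Ph a1) (hl0 : 0 ≤ l) (hl1 : l ≤ 1) :
    Ph ((1 - l) * s0 + l * s1) ≤ Ph ((1 - l) * b0 + l * b1) - Ph ((1 - l) * a0 + l * a1) := by
  set a : ℝ → ℝ := fun x => (1 - x) * a0 + x * a1 with ha
  set b : ℝ → ℝ := fun x => (1 - x) * b0 + x * b1 with hb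
  set F : ℝ → ℝ := fun x => Ph (b x) - Ph (a x) with hF
  set T : ℝ → ℝ := fun x => Ps (F x) with hT
  have hab : ∀ x ∈ Icc (0:ℝ) 1, a x < b x := by
    intro x hx
    rcases hx.1.eq_or_lt with h | h
    · simp only [ha, hb, ← h]; simpa using h0
    · have e1 : (1 - x) * a0 ≤ (1 - x) * b0 := mul_le_mul_of_nonneg_left h0.le (by linarith [hx.2])
      have e2 : x * a1 < x * b1 := mul_lt_mul_of_pos_left h1 h
      simp only [ha, hb]; linarith
  have hF0 : ∀ x ∈ Icc (0:ℝ) 1, 0 < F x := fun x hx => by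
    simp only [hF]; linarith [Ph_strict (hab x hx)]
  have hF1 : ∀ x, F x < 1 := fun x => by
    simp only [hF]; linarith [Ph_lt_one (b x), Ph_pos (a x)]
  have da : ∀ x, HasDerivAt a (a1 - a0) x := by
    intro x
    have := (((hasDerivAt_id x).const_sub 1).mul_const a0).add ((hasDerivAt_id x).mul_const a1)
    exact this.congr_deriv (by ring)
  have db : ∀ x, HasDerivAt b (b1 - b0) x := by
    intro x
    have := (((hasDerivAt_id x).const_sub 1).mul_const b0).add ((hasDerivAt_id x).mul_const b1)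
    exact this.congr_deriv (by ring)
  have dPa : ∀ x, HasDerivAt (fun x => Ph (a x)) (φ (a x) * (a1 - a0)) x := fun x =>
    (Ph_deriv (a x)).comp x (da x)
  have dPb : ∀ x, HasDerivAt (fun x => Ph (b x)) (φ (b x) * (b1 - b0)) x := fun x =>
    (Ph_deriv (b x)).comp x (db x)
  set F' : ℝ → ℝ := fun x => φ (b x) * (b1 - b0) - φ (a x) * (a1 - a0) with hF'
  have dF : ∀ x, HasDerivAt F (F' x) x := fun x => (dPb x).sub (dPa x)
  have dφa : ∀ x, HasDerivAt (fun x => φ (a x)) (-(a x * φ (a x)) * (a1 - a0)) x := fun x =>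
    (φ_deriv (a x)).comp x (da x)
  have dφb : ∀ x, HasDerivAt (fun x => φ (b x)) (-(b x * φ (b x)) * (b1 - b0)) x := fun x =>
    (φ_deriv (b x)).comp x (db x)
  set F'' : ℝ → ℝ := fun x => -(b x * φ (b x)) * (b1 - b0) * (b1 - b0) -
    -(a x * φ (a x)) * (a1 - a0) * (a1 - a0) with hF''
  have dF' : ∀ x, HasDerivAt F' (F'' x) x := fun x =>
    ((dφb x).mul_const _).sub ((dφa x).mul_const _)
  have dT : ∀ x ∈ Icc (0:ℝ) 1, HasDerivAt T ((φ (T x))⁻¹ * F' x) x := fun x hx =>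
    (Ps_deriv (hF0 x hx) (hF1 x)).comp x (dF x)
  have dφT : ∀ x ∈ Icc (0:ℝ) 1, HasDerivAt (fun x => φ (T x))
      (-(T x * φ (T x)) * ((φ (T x))⁻¹ * F' x)) x := fun x hx =>
    (φ_deriv (T x)).comp x (dT x hx)
  have dT' : ∀ x ∈ Icc (0:ℝ) 1, HasDerivAt (fun x => (φ (T x))⁻¹ * F' x)
      (-(-(T x * φ (T x)) * ((φ (T x))⁻¹ * F' x)) / φ (T x) ^ 2 * F' x +
        (φ (T x))⁻¹ * F'' x) x := fun x hx =>
    ((dφT x hx).inv (φ_pos _).ne').mul (dF' x)
  have hconc : ConcaveOn ℝ (Icc (0:ℝ) 1) T := by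
    apply concaveOn_of_hasDerivWithinAt2_nonpos (convex_Icc _ _)
      (f' := fun x => (φ (T x))⁻¹ * F' x)
      (f'' := fun x => (-(-(T x * φ (T x)) * ((φ (T x))⁻¹ * F' x)) / φ (T x) ^ 2 * F' x +
        (φ (T x))⁻¹ * F'' x))
    · intro x hx
      exact (dT x hx).continuousAt.continuousWithinAt
    · intro x hx
      exact (dT x (interior_subset hx)).hasDerivWithinAt
    · intro x hx
      exact (dT' x (interior_subset hx)).hasDerivWithinAt
    · intro x hx
      have hx' := interior_subset hx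
      have hq := quad (a := a x) (b := b x) (t := T x) (Ph_Ps (hF0 x hx') (hF1 x))
        (φ (a x) * (a1 - a0)) (φ (b x) * (b1 - b0))
      have p1 := φ_pos (a x)
      have p2 := φ_pos (b x)
      have p3 := φ_pos (T x)
      have e : (-(-(T x * φ (T x)) * ((φ (T x))⁻¹ * F' x)) / φ (T x) ^ 2 * F' x +
        (φ (T x))⁻¹ * F'' x) = (φ (T x))⁻¹ * (G (a x) * (φ (a x) * (a1 - a0)) ^ 2 -
          G (b x) * (φ (b x) * (b1 - b0)) ^ 2 + G (T x) * (φ (b x) * (b1 - b0) -
            φ (a x) * (a1 - a0)) ^ 2) := by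
        simp only [hF', hF'', G]
        field_simp
        ring
      rw [e]
      exact mul_nonpos_of_nonneg_of_nonpos (by positivity) hq
  have h01 : (0:ℝ) ∈ Icc (0:ℝ) 1 := ⟨le_rfl, zero_le_one⟩
  have h11 : (1:ℝ) ∈ Icc (0:ℝ) 1 := ⟨zero_le_one, le_rfl⟩
  have hT0 : s0 ≤ T 0 := by
    rw [hT]
    refine (Ps_le_iff (hF0 0 h01) (hF1 0)).2 ?_
    simpa [hF, ha, hb] using hs0
  have hT1 : s1 ≤ T 1 := by
    rw [hT]
    refine (Ps_le_iff (hF0 1 h11) (hF1 1)).2 ?_
    simpa [hF, ha, hb] using hs1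
  have key := hconc.2 h01 h11 (show (0:ℝ) ≤ 1 - l by linarith) hl0 (by ring)
  simp only [smul_eq_mul, mul_zero, mul_one, zero_add] at key
  have h2 : (1 - l) * s0 + l * s1 ≤ T l := by
    refine le_trans ?_ key
    have e1 := mul_le_mul_of_nonneg_left hT0 (by linarith : 0 ≤ 1 - l)
    have e2 := mul_le_mul_of_nonneg_left hT1 hl0
    linarith
  exact (Ps_le_iff (hF0 l ⟨hl0, hl1⟩) (hF1 l)).1 h2

end Pool.Agent.R755.Tr
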